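import Pool.Agent.Run7.h507.KR.Defs

/-!
# Project KR (helper507), piece MIX (helper305): the mixture for the monomial of degree n
-/

set_option autoImplicit false

namespace Pool.Agent.Run7.h305.KR

open Pool.Agent.Run7.h507.KR

/-- `S_MX` with `k` an integer in the first clause (in `Defs` it is elaborated as a natural number
with truncated subtraction). -/
def S_MX' : Prop := ∃ A : ℤ → ℝ,
  (∀ k : ℤ, HasSum (fun m : ℕ => B m * (1 + 8 / 25 * (17 / 50 : ℝ) ^ (k - 1 - (m : ℤ)))⁻¹) (A k)) ∧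
  (∀ k, 0 < A k) ∧ A 0 ≤ 2 ∧ (∀ k, 0 ≤ k → A (k + 1) = A k + 1) ∧ ∀ k, k < 0 → A (k + 1) ≤ A k + 1

theorem t_MIX (hMX : S_MX') (hT : S_T0B) : S_MIX := by
  intro n hn
  obtain ⟨A, hA, hApos, hA0, hAup, hAdn⟩ := hMX
  obtain ⟨-, -, hB, -⟩ := hT
  have hn' : (1 : ℝ) ≤ n := by exact_mod_cast hn
  obtain ⟨c, hc⟩ : ∃ c : ℝ, c = n + 1 - A 0 := ⟨_, rfl⟩
  have hc0 : 0 ≤ c := by rw [hc]; linarith
  obtain ⟨w, hw0, hw1⟩ : ∃ w : ℕ → ℝ, w 0 = c ∧ ∀ m, w (m + 1) = B m :=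
    ⟨fun j => Nat.casesOn j c B, rfl, fun _ => rfl⟩
  obtain ⟨β, hb0, hb1⟩ : ∃ β : ℕ → ℝ, β 0 = 0 ∧
      ∀ m : ℕ, β (m + 1) = 8 / 25 * (17 / 50 : ℝ) ^ (-(n : ℤ) - 1 - m) :=
    ⟨fun j => Nat.casesOn j 0 (fun m => 8 / 25 * (17 / 50 : ℝ) ^ (-(n : ℤ) - 1 - m)), rfl,
      fun _ => rfl⟩
  have hup : ∀ j : ℕ, A j = A 0 + j := by
    intro j
    induction j with
    | zero => simp
    | succ j ih =>
      push_cast
      rw [hAup j (by positivity), ih]
      ring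
  have hdn : ∀ j : ℕ, A 0 ≤ A (-(j : ℤ)) + j := by
    intro j
    induction j with
    | zero => simp
    | succ j ih =>
      have h1 := hAdn (-((j + 1 : ℕ) : ℤ)) (by push_cast; omega)
      have e : -((j + 1 : ℕ) : ℤ) + 1 = -(j : ℤ) := by push_cast; ring
      rw [e] at h1
      push_cast at h1 ⊢
      linarith
  refine ⟨w, β, fun k => A (k - n) + c, ?_, ?_, ?_, ?_, ?_, ?_⟩
  · intro j
    rcases j with _ | m
    · rw [hw0]; exact hc0
    · rw [hw1]; exact hB m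
  · intro j
    rcases j with _ | m
    · rw [hb0]
    · rw [hb1]; positivity
  · intro k
    have h1 := hApos (k - n)
    dsimp only
    linarith
  · intro k
    have e : (fun m : ℕ => w (m + 1) * (1 + β (m + 1) * (17 / 50 : ℝ) ^ k)⁻¹) =
        fun m : ℕ => B m * (1 + 8 / 25 * (17 / 50 : ℝ) ^ (k - n - 1 - m))⁻¹ := by
      funext m
      have h0 : (17 / 50 : ℝ) ≠ 0 := by norm_num
      have h1 : (k - n - 1 - m : ℤ) = (-(n : ℤ) - 1 - m) + k := by ring
      rw [hw1, hb1, mul_assoc, h1, zpow_add₀ h0]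
    have h1 : HasSum (fun m : ℕ => w (m + 1) * (1 + β (m + 1) * (17 / 50 : ℝ) ^ k)⁻¹)
        (A (k - n)) := by
      rw [e]
      exact hA (k - n)
    have h2 := (hasSum_nat_add_iff (f := fun j : ℕ => w j * (1 + β j * (17 / 50 : ℝ) ^ k)⁻¹) 1).1 h1
    have h3 : ∑ i ∈ Finset.range 1, w i * (1 + β i * (17 / 50 : ℝ) ^ k)⁻¹ = c := by
      rw [Finset.sum_range_one, hw0, hb0]
      simp
    rw [h3] at h2
    exact h2
  · intro k hk
    obtain ⟨j, rfl⟩ : ∃ j, k = n + j := ⟨k - n, by omega⟩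
    have h1 := hup j
    have e : ((n + j : ℕ) : ℤ) - n = j := by push_cast; ring
    dsimp only
    rw [e, h1, hc]
    push_cast
    ring
  · intro k hk
    obtain ⟨j, hj⟩ : ∃ j, n = k + j := ⟨n - k, by omega⟩
    have h1 := hdn j
    have e : (k : ℤ) - n = -(j : ℤ) := by rw [hj]; push_cast; ring
    have hjR : (n : ℝ) = k + j := by rw [hj]; push_cast; ring
    dsimp only
    rw [e, hc]
    linarith

end Pool.Agent.Run7.h305.KR
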